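import Pool.Agent.H8.DS.TarA
import Pool.Agent.H8.DS.TarK

/-!
A good system gives a nice direction (module GN of ds_modules).
-/

namespace DS

open Set Data

namespace GNh

variable {C S B Q : Type}

theorem hit_go (X : Data C S) (w : S → ℝ) (M : X.Model w B Q) (t : ℝ)
    (ht : t ∈ Ioo M.lo M.hi) (y y' : S × ℝ) :
    X.Hit t y y' ↔ ∃ b, (M.toFam.sys t).Go [b] y y' := by
  rw [M.hit t ht y y']
  constructor
  · rintro ⟨b, h1, h2, h3, h4⟩
    refine ⟨b, ?_⟩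
    rw [Sys.Go_single]
    exact ⟨h1, h3, Prod.ext h2 h4.symm⟩
  · rintro ⟨b, hb⟩
    rw [Sys.Go_single] at hb
    obtain ⟨h1, h3, h4⟩ := hb
    exact ⟨b, h1, congrArg Prod.fst h4, h3, (congrArg Prod.snd h4).symm⟩

theorem hc_go (X : Data C S) (w : S → ℝ) (M : X.Model w B Q) (t : ℝ)
    (ht : t ∈ Ioo M.lo M.hi) (n : ℕ) (y y' : S × ℝ) :
    X.HC t n y y' ↔ ∃ v : List B, v.length = n ∧ (M.toFam.sys t).Go v y y' := by
  induction n generalizing y with
  | zero =>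
    constructor
    · intro h; exact ⟨[], rfl, h⟩
    · rintro ⟨v, hv, h⟩
      have := List.eq_nil_of_length_eq_zero hv
      subst this
      exact h
  | succ n ih =>
    constructor
    · rintro ⟨y₁, a1, a2⟩
      obtain ⟨b, hb⟩ := (hit_go X w M t ht _ _).1 a1
      obtain ⟨v, hv, hg⟩ := (ih y₁).1 a2
      refine ⟨b :: v, by simp [hv], ?_⟩
      have := (Sys.Go_append (M.toFam.sys t) [b] v y y').2 ⟨y₁, hb, hg⟩
      simpa using this
    · rintro ⟨v, hv, hg⟩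
      cases v with
      | nil => simp at hv
      | cons b v =>
        have h2 : (M.toFam.sys t).Go ([b] ++ v) y y' := by simpa using hg
        obtain ⟨y₁, c1, c2⟩ := (Sys.Go_append (M.toFam.sys t) [b] v y y').1 h2
        exact ⟨y₁, (hit_go X w M t ht _ _).2 ⟨b, c1⟩,
          (ih y₁).2 ⟨v, by simpa using hv, c2⟩⟩

theorem per_go (X : Data C S) (w : S → ℝ) (M : X.Model w B Q) (t : ℝ)
    (ht : t ∈ Ioo M.lo M.hi) (y y' : S × ℝ) :
    (∃ n, 0 < n ∧ X.HC t n y y') ↔ ∃ v : List B, v ≠ [] ∧ (M.toFam.sys t).Go v y y' := by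
  constructor
  · rintro ⟨n, hn, h⟩
    obtain ⟨v, hv, hg⟩ := (hc_go X w M t ht n y y').1 h
    refine ⟨v, ?_, hg⟩
    rintro rfl
    simp at hv
    omega
  · rintro ⟨v, hv, hg⟩
    exact ⟨v.length, List.length_pos_iff.2 hv, (hc_go X w M t ht _ y y').2 ⟨v, rfl, hg⟩⟩

theorem ctr (X : Data C S) (hX : X.Surface) (w : S → ℝ) (hw : X.Wt w) (M : X.Model w B Q)
    (L : ℕ) (ρ : ℝ) (hL : 0 < L) (h0 : 0 < ρ) (h1 : ρ < 1) (t : ℝ) (ht : t ∈ Ioo M.lo M.hi)
    (hc : ∀ v : List B, v.length = L → ∀ y y', (M.toFam.sys t).Go v y y' →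
      (M.toFam.sys t).wal v * (X.len y'.1 / w y'.1) ≤ ρ * (X.len y.1 / w y.1)) :
    (M.toFam.sys t).Ctr (fun s => X.len s / w s) L ρ
      (fun s => {x | ∃ i, M.qs i = s ∧ x = M.qb i - M.qa i * t}) where
  mpos s := div_pos (hX.pos s) (hw.pos s)
  nonexp b := by
    by_cases h : X.Hopf (X.comp (X.glue (M.src b)))
    · exact (M.slope_hopf b h).le
    · exact (M.slope_flat b h).le
  Lpos := hL
  ρ0 := h0
  ρ1 := h1
  contr := hc
  br0 s := by
    obtain ⟨i, a1, a2, a3⟩ := M.end0 s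
    exact ⟨i, a1, by rw [a2, a3]; ring⟩
  br1 s := by
    obtain ⟨i, a1, a2, a3⟩ := M.end1 s
    exact ⟨i, a1, by rw [a2, a3]; ring⟩
  piece s u v huv hI hd := by
    have := M.piece t ht s u v huv hI (fun i hi hm =>
      (Set.disjoint_left.1 hd hm) ⟨i, hi, rfl⟩)
    rcases this with ⟨b, hb, hb2⟩ | h
    · exact Or.inl ⟨b, hb, hb2⟩
    · refine Or.inr fun b hb => Set.disjoint_left.2 fun x hx hx2 => h b hb x hx hx2

theorem main (h1 : T_FIN) (h2 : T_ATT) (h3 : T_BWD) : T_GN := by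
  intro C S B Q _ _ X w hX hw M L n ρ hL h0 hρ t ht hfc hc hgood
  have hctr := ctr X hX w hw M L ρ hL h0 hρ t ht hc
  refine ⟨?_, ?_, ?_, ⟨L, hfc⟩⟩
  · have := h1 S B (M.toFam.sys t) _ L ρ _ n hctr hgood
    refine this.subset ?_
    intro y hy
    exact (per_go X w M t ht y y).1 hy
  · intro y hy
    obtain ⟨y', a1, a2⟩ := h2 S B (M.toFam.sys t) _ L ρ _ n hctr hgood y
      (fun k => (hit_go X w M t ht _ _).1 (hy k))
    exact ⟨y', (per_go X w M t ht y' y').2 a1, a2⟩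
  · intro y hy
    have := h3 S B (M.toFam.sys t) _ L ρ _ n hctr hgood y
      (fun k => (hit_go X w M t ht _ _).1 (hy k))
    exact (per_go X w M t ht _ _).2 this

end GNh

/-- GN. -/
theorem pf_GN (h1 : T_FIN) (h2 : T_ATT) (h3 : T_BWD) : T_GN := GNh.main h1 h2 h3

end DS
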