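import Pool.Agent.H8.DS.TarG

/-!
The first return relation is deterministic in both directions (module HITD of ds_modules).
-/

namespace DS

open Set Data

namespace HITDh

variable {C S : Type}

/-- Data of one first return, moved so that it ends at the point `y` of the slits. -/
theorem back (h2 : T_EQV) (X : Data C S) (hX : X.Surface) (t : ℝ) (y₁ y : S × ℝ)
    (h : X.Hit t y₁ y) : ∃ g ∈ X.deck (X.comp y.1), ∃ H > 0,
      X.Clear t (X.comp y.1) (act g (X.pt (X.glue y₁.1) y₁.2)) H ∧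
      fwd t (act g (X.pt (X.glue y₁.1) y₁.2)) H = X.pt y.1 y.2 ∧
      X.comp y.1 = X.comp (X.glue y₁.1) ∧ y₁.2 ∈ Icc (0 : ℝ) 1 := by
  obtain ⟨hy, hy1, hc, g, hg, k, hk, hcl, he⟩ := h
  have hpos := deck_pos X hX _ g hg
  have hinv := deck_inv X hX _ g hg
  refine ⟨ginv g, hinv, (ginv g).1 * k, mul_pos (inv_pos.2 hpos) hk, ?_, ?_, hc,
    ⟨hy.1.le, hy.2.le⟩⟩
  · rw [((h2 C S X hX (X.comp y.1) (ginv g) hinv (X.pt (X.glue y₁.1) y₁.2)).2.2.2.2 t k)]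
    rw [hc]; exact hcl
  · rw [← act_fwd, he, act_ginv g hpos.ne']

/-- Two clear segments that end at the same point and start on slits have the same length. -/
theorem notlt (X : Data C S) (t : ℝ) (c : C) (z₁ z₂ : ℝ × ℝ) (H₁ H₂ : ℝ) (h1 : 0 < H₁)
    (hcl : X.Clear t c z₂ H₂) (he : fwd t z₁ H₁ = fwd t z₂ H₂) (hs : X.OnSlit c z₁) :
    ¬ H₁ < H₂ := by
  intro hlt
  have e : z₁ = fwd t z₂ (H₂ - H₁) := by
    have := congrArg (fun w => fwd t w (-H₁)) he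
    simp only [fwd_add] at this
    rw [add_neg_cancel, fwd_zero] at this
    rw [this, sub_eq_add_neg]
  have hp := hcl (H₂ - H₁) (by linarith) (by linarith)
  rw [← e] at hp
  exact hp.1 hs

theorem main (h1 : T_SLU) (h2 : T_EQV) : T_HITD := by
  intro C S X hX t y y₁ y₂
  constructor
  · rintro ⟨hy, hy1, hc1, g1, hg1, k1, hk1, hcl1, he1⟩ ⟨_, hy2, hc2, g2, hg2, k2, hk2, hcl2, he2⟩
    have on1 : X.OnSlit (X.comp (X.glue y.1)) (fwd t (X.pt (X.glue y.1) y.2) k1) :=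
      ⟨y₁.1, hc1, g1, hc1 ▸ hg1, y₁.2, ⟨hy1.1.le, hy1.2.le⟩, he1⟩
    have on2 : X.OnSlit (X.comp (X.glue y.1)) (fwd t (X.pt (X.glue y.1) y.2) k2) :=
      ⟨y₂.1, hc2, g2, hc2 ▸ hg2, y₂.2, ⟨hy2.1.le, hy2.2.le⟩, he2⟩
    have hk : k1 = k2 := by
      rcases lt_trichotomy k1 k2 with h | h | h
      · exact absurd on1 (hcl2 k1 hk1 h).1
      · exact h
      · exact absurd on2 (hcl1 k2 hk2 h).1
    subst hk
    have hcc : X.comp y₁.1 = X.comp y₂.1 := hc1.trans hc2.symm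
    obtain ⟨e1, _, e3⟩ := h1 C S X hX y₁.1 y₂.1 hcc g1 hg1 g2 (by rw [hcc]; exact hg2) y₁.2
      ⟨hy1.1.le, hy1.2.le⟩ y₂.2 ⟨hy2.1.le, hy2.2.le⟩ (he1.symm.trans he2)
    exact Prod.ext e1 e3
  · intro a1 a2
    obtain ⟨g1, hg1, H1, hH1, cl1, e1, c1, m1⟩ := back h2 X hX t y₁ y a1
    obtain ⟨g2, hg2, H2, hH2, cl2, e2, c2, m2⟩ := back h2 X hX t y₂ y a2
    have on1 : X.OnSlit (X.comp y.1) (act g1 (X.pt (X.glue y₁.1) y₁.2)) :=
      ⟨X.glue y₁.1, c1.symm, g1, hg1, y₁.2, m1, rfl⟩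
    have on2 : X.OnSlit (X.comp y.1) (act g2 (X.pt (X.glue y₂.1) y₂.2)) :=
      ⟨X.glue y₂.1, c2.symm, g2, hg2, y₂.2, m2, rfl⟩
    have hH : H1 = H2 := by
      have n1 := notlt X t _ _ _ _ _ hH1 cl2 (e1.trans e2.symm) on1
      have n2 := notlt X t _ _ _ _ _ hH2 cl1 (e2.trans e1.symm) on2
      linarith [not_lt.1 n1, not_lt.1 n2]
    subst hH
    have hz : act g1 (X.pt (X.glue y₁.1) y₁.2) = act g2 (X.pt (X.glue y₂.1) y₂.2) := by
      have := congrArg (fun w => fwd t w (-H1)) (e1.trans e2.symm)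
      simp only [fwd_add] at this
      rwa [add_neg_cancel, fwd_zero, fwd_zero] at this
    obtain ⟨f1, _, f3⟩ := h1 C S X hX (X.glue y₁.1) (X.glue y₂.1) (c1.symm.trans c2) g1
      (by rw [← c1]; exact hg1) g2 (by rw [← c1]; exact hg2) y₁.2 m1 y₂.2 m2 hz
    exact Prod.ext (X.glue.injective f1) f3

end HITDh

/-- HITD. -/
theorem pf_HITD (h1 : T_SLU) (h2 : T_EQV) : T_HITD := HITDh.main h1 h2

end DS
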