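import Pool.Agent.H8.DS.TarK

/-!
No flat orbit is infinite in both directions (module K5 of ds_modules).
-/

namespace DS

open Set Data

namespace K5h

variable {C S : Type}

theorem flat_of_RR (X : Data C S) (t : ℝ) (s : S) (h : X.RR t s) :
    ¬ X.Hopf (X.comp s) ∧ ¬ X.Hopf (X.comp (X.glue s)) := by
  obtain ⟨ξ, _, hR⟩ := h
  obtain ⟨⟨y₁, a1⟩, ⟨y₂, a2⟩⟩ := hR 1
  obtain ⟨z, _, b2, _⟩ := a1
  obtain ⟨z', c1, c2, c3⟩ := a2
  simp only [FC] at c3
  subst c3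
  refine ⟨?_, b2⟩
  obtain ⟨_, _, e, _⟩ := c1
  simp only at e
  rwa [e]

theorem main (h1 : T_K2B) (h2 : T_K3G) (h3 : T_K4G) : T_K5 := by
  intro C S _ X hX t ht hR s₀ hs₀
  have b := h1 C S X hX t hR
  have s1 : ∀ s, ¬ X.Hopf (X.comp s) → (X.RR t s ↔ X.RR t (X.glue.symm s)) := by
    intro s hs
    obtain ⟨j, k, ξ₁, ξ₂, ξ₃, η₁, η₂, η₃, e, a1, a2, a3⟩ := h2 C S X hX t ht s hs
    have hj : ¬ X.Hopf (X.comp (X.glue j)) := by rw [e]; exact hs
    have c1 := b (j, ξ₁) (s, η₁) a1 hj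
    have c2 := b (j, ξ₂) (k, η₂) a2 hj
    have c3 := b (X.glue.symm s, ξ₃) (k, η₃) a3
      (by simp only [Equiv.apply_symm_apply]; exact hs)
    simp only at c1 c2 c3
    rw [← c1, c2, c3]
  have s2 : ∀ s k, X.comp s = X.comp k → ¬ X.Hopf (X.comp s) → X.RR t s → X.RR t k := by
    intro s k hsk hs hr
    have hchain := h3 C S X hX t ht s k hsk hs
    have key : ∀ k', Relation.ReflTransGen (fun s₁ s₂ => X.comp s₁ = X.comp s₂ ∧ ∃ ξ₁ ξ₂ : ℝ,
        X.Hit t (X.glue.symm s₁, ξ₁) (s₂, ξ₂)) s k' → ¬ X.Hopf (X.comp k') ∧ X.RR t k' := by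
      intro k' hk'
      induction hk' with
      | refl => exact ⟨hs, hr⟩
      | tail _ hstep ih =>
        obtain ⟨e, ξ₁, ξ₂, hh⟩ := hstep
        obtain ⟨i1, i2⟩ := ih
        refine ⟨by rw [← e]; exact i1, ?_⟩
        have := b _ _ hh (by simp only [Equiv.apply_symm_apply]; exact i1)
        simp only at this
        rw [← this, ← s1 _ i1]
        exact i2
    exact (key k hchain).2
  let G : C → Prop := fun c => ¬ X.Hopf c ∧ ∃ s', X.comp s' = c ∧ X.RR t s'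
  have hG : ∀ c c', Relation.EqvGen (fun c c' => ∃ s, X.comp s = c ∧ X.comp (X.glue s) = c') c c' →
      (G c ↔ G c') := by
    intro c c' h
    induction h with
    | rel c c' h =>
      obtain ⟨s₁, e1, e2⟩ := h
      subst e1 e2
      constructor
      · rintro ⟨g1, s', g2, g3⟩
        have r1 : X.RR t s₁ := s2 s' s₁ g2 (by rw [g2]; exact g1) g3
        have n2 := (flat_of_RR X t s₁ r1).2
        refine ⟨n2, X.glue s₁, rfl, ?_⟩
        rw [s1 _ n2, Equiv.symm_apply_apply]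
        exact r1
      · rintro ⟨g1, s', g2, g3⟩
        have r1 : X.RR t (X.glue s₁) := s2 s' (X.glue s₁) g2 (by rw [g2]; exact g1) g3
        rw [s1 _ g1, Equiv.symm_apply_apply] at r1
        exact ⟨(flat_of_RR X t s₁ r1).1, s₁, rfl, r1⟩
    | refl c => exact Iff.rfl
    | symm c c' _ ih => exact ih.symm
    | trans c c' c'' _ _ ih1 ih2 => exact ih1.trans ih2
  obtain ⟨c, hc⟩ := hX.hopf
  have g0 : G (X.comp s₀) := ⟨(flat_of_RR X t s₀ hs₀).1, s₀, rfl, hs₀⟩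
  exact ((hG _ c (hX.conn _ c)).1 g0).1 hc

end K5h

/-- K5. -/
theorem pf_K5 (h1 : T_K2B) (h2 : T_K3G) (h3 : T_K4G) : T_K5 := K5h.main h1 h2 h3

end DS
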